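import Pool.Agent.helper11.RPQ.SpecI
import Pool.Agent.helper62.RS.All

set_option autoImplicit false

open scoped MatrixGroups ContDiff Topology UpperHalfPlane ComplexConjugate ENNReal
open UpperHalfPlane MeasureTheory Filter Set

namespace Pool.Agent.RPQ

open Pool.Agent.RS
open Pool.Agent.MS (BA BB st pf gk Dk amk)

theorem SER_isOpen : IsOpen {w : ℂ | 0 < w.im} := isOpen_lt continuous_const Complex.continuous_im

/-- the derivatives at a general point -/
theorem SER_bd {f : ℍ → ℝ} {n : ℕ} {B : ℝ} (h : CkB n f B) {w : ℂ} (hw : 0 < w.im) :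
    ‖iteratedFDeriv ℝ n (QU.onC f) w‖ ≤ B * (w.im⁻¹) ^ n := by
  obtain ⟨-, -, -, -, -, -, -, hA, hN, -⟩ := A_GLC
  set g : SL(2, ℝ) := nM w.re * aM (Real.log w.im) with hg
  have hgz : ∀ z : ℍ, ((g • z : ℍ) : ℂ) = (w.im : ℂ) * z + w.re := by
    intro z
    rw [hg, mul_smul, hN, hA, Real.exp_log hw]
  set H : ℂ → ℝ := QU.onC (fun z : ℍ => f (g • z)) with hH
  have e1 : (QU.onC f) =ᶠ[𝓝 w] fun w' => H ((w.im⁻¹ : ℝ) • (w' + (-(w.re : ℂ)))) := by
    filter_upwards [SER_isOpen.mem_nhds hw] with w' hw'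
    have h1 : 0 < ((w.im⁻¹ : ℝ) • (w' + (-(w.re : ℂ)))).im := by
      have h2 : ((w.im⁻¹ : ℝ) • (w' + (-(w.re : ℂ)))).im = w.im⁻¹ * w'.im := by simp
      rw [h2]
      have h3 : 0 < w'.im := hw'
      positivity
    show f (ofComplex w') = f (g • ofComplex ((w.im⁻¹ : ℝ) • (w' + (-(w.re : ℂ)))))
    congr 1
    apply UpperHalfPlane.ext
    rw [hgz, ofComplex_apply_of_im_pos hw', ofComplex_apply_of_im_pos h1]
    show w' = (w.im : ℂ) * ((w.im⁻¹ : ℝ) • (w' + (-(w.re : ℂ)))) + w.re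
    have h4 : (w.im : ℂ) ≠ 0 := by exact_mod_cast hw.ne'
    rw [Complex.real_smul]
    push_cast
    field_simp
    ring
  have e2 := e1.iteratedFDeriv ℝ n
  rw [e2.eq_of_nhds]
  have hy : (w.im⁻¹ : ℝ) ≠ 0 := inv_ne_zero hw.ne'
  have e3 : iteratedFDeriv ℝ n (fun w' => H ((w.im⁻¹ : ℝ) • (w' + (-(w.re : ℂ))))) w =
      iteratedFDeriv ℝ n (fun w' => H ((w.im⁻¹ : ℝ) • w')) (w + (-(w.re : ℂ))) :=
    iteratedFDeriv_comp_add_right (f := fun w' => H ((w.im⁻¹ : ℝ) • w')) n (-(w.re : ℂ)) w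
  rw [e3]
  set L : ℂ ≃L[ℝ] ℂ := ContinuousLinearEquiv.smulLeft (Units.mk0 (w.im⁻¹ : ℝ) hy) with hL
  have hLa : ∀ u : ℂ, L u = (w.im⁻¹ : ℝ) • u := fun u => rfl
  have e4 : (fun w' => H ((w.im⁻¹ : ℝ) • w')) = H ∘ L := by
    ext u
    rw [Function.comp_apply, hLa]
  have e5 : iteratedFDeriv ℝ n (H ∘ L) (w + (-(w.re : ℂ))) =
      (iteratedFDeriv ℝ n H (L (w + (-(w.re : ℂ))))).compContinuousLinearMap fun _ => (L : ℂ →L[ℝ] ℂ) := by
    have h5 := L.iteratedFDerivWithin_comp_right H (s := univ) uniqueDiffOn_univ (x := w + (-(w.re : ℂ))) (mem_univ _) n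
    rw [preimage_univ, iteratedFDerivWithin_univ, iteratedFDerivWithin_univ] at h5
    exact h5
  have e6 : L (w + (-(w.re : ℂ))) = (I : ℍ) := by
    rw [hLa, Complex.real_smul]
    have h4 : (w.im : ℂ) ≠ 0 := by exact_mod_cast hw.ne'
    have h5 : w + (-(w.re : ℂ)) = (w.im : ℂ) * Complex.I := by
      apply Complex.ext <;> simp
    rw [h5, ← mul_assoc]
    push_cast
    rw [inv_mul_cancel₀ h4, one_mul]
  rw [e4, e5, e6]
  refine (ContinuousMultilinearMap.norm_compContinuousLinearMap_le _ _).trans ?_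
  have e7 : ‖(L : ℂ →L[ℝ] ℂ)‖ ≤ w.im⁻¹ := by
    apply ContinuousLinearMap.opNorm_le_bound _ (by positivity)
    intro u
    show ‖(w.im⁻¹ : ℝ) • u‖ ≤ _
    rw [norm_smul, Real.norm_of_nonneg (by positivity)]
  have e8 : ∏ _i : Fin n, ‖(L : ℂ →L[ℝ] ℂ)‖ ≤ (w.im⁻¹) ^ n := by
    rw [Finset.prod_const, Finset.card_univ, Fintype.card_fin]
    exact pow_le_pow_left₀ (norm_nonneg _) e7 n
  have e9 := h g
  exact mul_le_mul e9 e8 (Finset.prod_nonneg fun _ _ => norm_nonneg _) ((norm_nonneg _).trans e9)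

theorem SER_val {f : ℍ → ℝ} {B : ℝ} (h : CkB 0 f B) (z : ℍ) : |f z| ≤ B := by
  have h1 := SER_bd h z.im_pos
  rw [norm_iteratedFDeriv_zero, pow_zero, mul_one] at h1
  have h2 : QU.onC f (z : ℂ) = f z := by
    show f (ofComplex (z : ℂ)) = f z
    rw [ofComplex_apply]
  rw [h2] at h1
  exact h1

/-- smoothness at a point -/
theorem SER_at {v : ℕ → ℍ → ℝ} (hv : ∀ k, QU.CD ∞ (v k)) {c : ℕ → ℕ → ℝ} (hc : ∀ n, Summable (c n))
    (hcb : ∀ n k, CkB n (v k) (c n k)) {w₀ : ℂ} (hw₀ : 0 < w₀.im) :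
    ContDiffAt ℝ ∞ (QU.onC fun z => ∑' k, v k z) w₀ := by
  let b : ContDiffBump w₀ := ⟨w₀.im / 4, w₀.im / 2, by positivity, by linarith⟩
  have hball : ∀ w ∈ tsupport (b : ℂ → ℝ), w₀.im / 2 ≤ w.im := by
    intro w hw
    rw [b.tsupport_eq, Metric.mem_closedBall, Complex.dist_eq] at hw
    have h1 : |(w - w₀).im| ≤ w₀.im / 2 := (Complex.abs_im_le_norm _).trans hw
    rw [Complex.sub_im] at h1
    have h2 := (abs_le.1 h1).1
    linarith
  have hbs : ContDiff ℝ ∞ (b : ℂ → ℝ) := b.contDiff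
  have hFs : ∀ k, ∀ w : ℂ, 0 < w.im → ContDiffAt ℝ ∞ (QU.onC (v k)) w := fun k w hw =>
    (hv k).contDiffAt (SER_isOpen.mem_nhds hw)
  have hf : ∀ k, ContDiff ℝ ∞ (fun w : ℂ => b w * QU.onC (v k) w) := by
    intro k
    rw [contDiff_iff_contDiffAt]
    intro w
    by_cases h1 : w ∈ tsupport (b : ℂ → ℝ)
    · have h2 := hball w h1
      exact hbs.contDiffAt.mul (hFs k w (by linarith))
    · have h3 : (b : ℂ → ℝ) =ᶠ[𝓝 w] 0 := notMem_tsupport_iff_eventuallyEq.1 h1
      have h4 : (fun w : ℂ => b w * QU.onC (v k) w) =ᶠ[𝓝 w] fun _ => 0 := by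
        filter_upwards [h3] with u hu
        rw [hu]
        simp
      exact contDiffAt_const.congr_of_eventuallyEq h4
  have hM : ∀ i : ℕ, ∃ M : ℝ, 0 ≤ M ∧ ∀ w, ‖iteratedFDeriv ℝ i (b : ℂ → ℝ) w‖ ≤ M := by
    intro i
    have h1 : HasCompactSupport (iteratedFDeriv ℝ i (b : ℂ → ℝ)) := b.hasCompactSupport.iteratedFDeriv i
    have h2 : Continuous (iteratedFDeriv ℝ i (b : ℂ → ℝ)) :=
      hbs.continuous_iteratedFDeriv (by exact_mod_cast le_top)
    obtain ⟨M, hM⟩ := h1.exists_bound_of_continuous h2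
    exact ⟨M, (norm_nonneg _).trans (hM 0), hM⟩
  choose M hM0 hM using hM
  have hsum : ContDiff ℝ ∞ (fun w : ℂ => ∑' k, b w * QU.onC (v k) w) := by
    refine contDiff_tsum (𝕜 := ℝ) (N := ⊤) (v := fun n k => ∑ i ∈ Finset.range (n + 1), (n.choose i : ℝ) * M i *
      (c (n - i) k * ((w₀.im / 2)⁻¹) ^ (n - i))) hf ?_ ?_
    · intro n _
      apply summable_sum
      intro i _
      exact ((hc (n - i)).mul_right _).mul_left _
    · intro n k w _
      by_cases hw : w ∈ tsupport (b : ℂ → ℝ)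
      · have h2 := hball w hw
        have hwp : 0 < w.im := by linarith
        have h3 := norm_iteratedFDerivWithin_mul_le (𝕜 := ℝ) (A := ℝ) (N := ∞) (s := {w : ℂ | 0 < w.im})
          (f := fun w : ℂ => (b w : ℝ)) (g := QU.onC (v k))
          hbs.contDiffOn (hv k) SER_isOpen.uniqueDiffOn (x := w) hwp (n := n) (by exact_mod_cast le_top)
        simp only [iteratedFDerivWithin_of_isOpen _ SER_isOpen (show w ∈ {w : ℂ | 0 < w.im} from hwp)] at h3
        refine h3.trans ?_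
        apply Finset.sum_le_sum
        intro i _
        have h4 := SER_bd (hcb (n - i) k) hwp
        have hc0 : 0 ≤ c (n - i) k := (norm_nonneg _).trans (hcb (n - i) k 1)
        have h5 : c (n - i) k * (w.im⁻¹) ^ (n - i) ≤ c (n - i) k * ((w₀.im / 2)⁻¹) ^ (n - i) := by
          apply mul_le_mul_of_nonneg_left _ hc0
          apply pow_le_pow_left₀ (by positivity)
          exact inv_anti₀ (by positivity) h2
        have h6 := h4.trans h5
        have h7 := hM i w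
        have h8 : (n.choose i : ℝ) * ‖iteratedFDeriv ℝ i (b : ℂ → ℝ) w‖ ≤ (n.choose i : ℝ) * M i :=
          mul_le_mul_of_nonneg_left h7 (Nat.cast_nonneg _)
        exact mul_le_mul h8 h6 (norm_nonneg _) (mul_nonneg (Nat.cast_nonneg _) (hM0 i))
      · have h2 : (fun w : ℂ => b w * QU.onC (v k) w) =ᶠ[𝓝 w] fun _ => 0 := by
          have h3 : (b : ℂ → ℝ) =ᶠ[𝓝 w] 0 := notMem_tsupport_iff_eventuallyEq.1 hw
          filter_upwards [h3] with u hu
          rw [hu]
          simp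
        rw [(h2.iteratedFDeriv ℝ n).eq_of_nhds]
        have h4 : ‖iteratedFDeriv ℝ n (fun _ : ℂ => (0 : ℝ)) w‖ = 0 := by
          rw [iteratedFDeriv_fun_zero]
          simp
        rw [h4]
        apply Finset.sum_nonneg
        intro i _
        have hc0 : 0 ≤ c (n - i) k := (norm_nonneg _).trans (hcb (n - i) k 1)
        have := hM0 i
        positivity
  have heq : (QU.onC fun z => ∑' k, v k z) =ᶠ[𝓝 w₀] fun w : ℂ => ∑' k, b w * QU.onC (v k) w := by
    filter_upwards [b.eventuallyEq_one] with w hw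
    show ∑' k, v k (ofComplex w) = ∑' k, b w * v k (ofComplex w)
    rw [hw]
    simp
  exact hsum.contDiffAt.congr_of_eventuallyEq heq

theorem SER_proof : SER_stmt := by
  intro Γ v hv hS
  choose c hc hcb using hS
  have h1 : ∀ z, Summable fun k => v k z := by
    intro z
    apply Summable.of_norm_bounded (hc 0)
    intro k
    exact SER_val (hcb 0 k) z
  have h2 : QU.CD ∞ (fun z => ∑' k, v k z) := by
    intro w hw
    exact (SER_at (fun k => (hv k).1) hc hcb hw).contDiffWithinAt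
  refine ⟨h1, h2, ?_, ?_⟩
  · have h3 : (fun z : ℍ => ∑' k, v k z) = fun z : ℍ => QU.onC (fun z => ∑' k, v k z) (z : ℂ) := by
      ext z
      show _ = ∑' k, v k (ofComplex (z : ℂ))
      rw [ofComplex_apply]
    rw [h3]
    exact h2.continuousOn.comp_continuous UpperHalfPlane.continuous_coe fun z => z.im_pos
  · intro γ z
    simp only [(hv _).2.2 γ z]

end Pool.Agent.RPQ
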