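import Pool.Agent.helper11.RPQ.SpecI
import Pool.Agent.helper23.RPQ.TRN

/-!
# Row rpi:TRL (MP_07c750): transport of the coefficients with the phase of a Lipschitz perturbation
-/

set_option autoImplicit false

open scoped MatrixGroups ContDiff Topology UpperHalfPlane ComplexConjugate
open UpperHalfPlane MeasureTheory Filter Set

namespace Pool.Agent.RPQ

open Pool.Agent.RS
open Pool.Agent.MS (BA BB st pf gk Dk amk)

/-- the numbers -/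
theorem TRL_num (R η ϵ C0 C1 K N q l e x nχ X : ℝ) (hR : 1 ≤ R) (hη : 0 < η) (hη2 : η ≤ 1 / 20) (hϵ : 0 ≤ ϵ) (hK : 0 ≤ K)
    (hC1 : 0 ≤ C1) (hN : 0 ≤ N) (hy : R * ϵ ≤ R ^ (η / 32))
    (hq : R * q ≤ 2 * N) (hl : R * l ≤ C1 * R ^ (3 / 2 : ℝ) * N) (he : R * e ≤ K * R ^ (-(η / 4)) * N)
    (hx : R * x ≤ 2 * nχ) (hn : nχ ≤ R ^ (2 - 1 / 60 : ℝ) * N)
    (hX : X ≤ 4 * ((ϵ * C0) ^ 2 * q + R⁻¹ ^ 2 * l + (R * ϵ) ^ 2 * e + R⁻¹ ^ 2 * x)) :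
    R * X ≤ 4 * (2 * C0 ^ 2 + C1 + K + 4) * (R ^ (-(η / 8)) * N) := by
  have hR0 : 0 < R := by linarith
  have p1 : (R * ϵ) ^ 2 ≤ R ^ (η / 16) := by
    have h1 := pow_le_pow_left₀ (by positivity) hy 2
    refine h1.trans (le_of_eq ?_)
    rw [← Real.rpow_natCast, ← Real.rpow_mul hR0.le]
    congr 1
    push_cast
    ring
  have p2 : ϵ ^ 2 ≤ R ^ (-(η / 8)) := by
    have h1 : ϵ ^ 2 = (R * ϵ) ^ 2 * R ^ (-2 : ℝ) := by
      rw [Real.rpow_neg hR0.le, Real.rpow_two]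
      field_simp
    rw [h1]
    calc (R * ϵ) ^ 2 * R ^ (-2 : ℝ) ≤ R ^ (η / 16) * R ^ (-2 : ℝ) := mul_le_mul_of_nonneg_right p1 (Real.rpow_nonneg hR0.le _)
      _ = R ^ (η / 16 + -2) := (Real.rpow_add hR0 _ _).symm
      _ ≤ _ := Real.rpow_le_rpow_of_exponent_le hR (by linarith)
  have p3 : R⁻¹ ^ 2 * R ^ (3 / 2 : ℝ) ≤ R ^ (-(η / 8)) := by
    have h1 : R⁻¹ ^ 2 = R ^ (-2 : ℝ) := by
      rw [Real.rpow_neg hR0.le, Real.rpow_two, inv_pow]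
    rw [h1, ← Real.rpow_add hR0]
    exact Real.rpow_le_rpow_of_exponent_le hR (by linarith)
  have p4 : (R * ϵ) ^ 2 * R ^ (-(η / 4)) ≤ R ^ (-(η / 8)) := by
    calc (R * ϵ) ^ 2 * R ^ (-(η / 4)) ≤ R ^ (η / 16) * R ^ (-(η / 4)) := mul_le_mul_of_nonneg_right p1 (Real.rpow_nonneg hR0.le _)
      _ = R ^ (η / 16 + -(η / 4)) := (Real.rpow_add hR0 _ _).symm
      _ ≤ _ := Real.rpow_le_rpow_of_exponent_le hR (by linarith)
  have p5 : R⁻¹ ^ 2 * R ^ (2 - 1 / 60 : ℝ) ≤ R ^ (-(η / 8)) := by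
    have h1 : R⁻¹ ^ 2 = R ^ (-2 : ℝ) := by
      rw [Real.rpow_neg hR0.le, Real.rpow_two, inv_pow]
    rw [h1, ← Real.rpow_add hR0]
    exact Real.rpow_le_rpow_of_exponent_le hR (by linarith)
  have hy0 : 0 ≤ R ^ (-(η / 8)) * N := mul_nonneg (Real.rpow_nonneg hR0.le _) hN
  have s1 : (ϵ * C0) ^ 2 * (R * q) ≤ 2 * C0 ^ 2 * (R ^ (-(η / 8)) * N) := by
    calc (ϵ * C0) ^ 2 * (R * q) ≤ (ϵ * C0) ^ 2 * (2 * N) := mul_le_mul_of_nonneg_left hq (sq_nonneg _)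
      _ = ϵ ^ 2 * (2 * C0 ^ 2 * N) := by ring
      _ ≤ R ^ (-(η / 8)) * (2 * C0 ^ 2 * N) := mul_le_mul_of_nonneg_right p2 (by positivity)
      _ = _ := by ring
  have s2 : R⁻¹ ^ 2 * (R * l) ≤ C1 * (R ^ (-(η / 8)) * N) := by
    calc R⁻¹ ^ 2 * (R * l) ≤ R⁻¹ ^ 2 * (C1 * R ^ (3 / 2 : ℝ) * N) := mul_le_mul_of_nonneg_left hl (sq_nonneg _)
      _ = R⁻¹ ^ 2 * R ^ (3 / 2 : ℝ) * (C1 * N) := by ring
      _ ≤ R ^ (-(η / 8)) * (C1 * N) := mul_le_mul_of_nonneg_right p3 (by positivity)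
      _ = _ := by ring
  have s3 : (R * ϵ) ^ 2 * (R * e) ≤ K * (R ^ (-(η / 8)) * N) := by
    calc (R * ϵ) ^ 2 * (R * e) ≤ (R * ϵ) ^ 2 * (K * R ^ (-(η / 4)) * N) := mul_le_mul_of_nonneg_left he (sq_nonneg _)
      _ = (R * ϵ) ^ 2 * R ^ (-(η / 4)) * (K * N) := by ring
      _ ≤ R ^ (-(η / 8)) * (K * N) := mul_le_mul_of_nonneg_right p4 (by positivity)
      _ = _ := by ring
  have s4 : R⁻¹ ^ 2 * (R * x) ≤ 2 * (R ^ (-(η / 8)) * N) := by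
    calc R⁻¹ ^ 2 * (R * x) ≤ R⁻¹ ^ 2 * (2 * (R ^ (2 - 1 / 60 : ℝ) * N)) :=
          mul_le_mul_of_nonneg_left (hx.trans (by linarith)) (sq_nonneg _)
      _ = R⁻¹ ^ 2 * R ^ (2 - 1 / 60 : ℝ) * (2 * N) := by ring
      _ ≤ R ^ (-(η / 8)) * (2 * N) := mul_le_mul_of_nonneg_right p5 (by positivity)
      _ = _ := by ring
  have s5 : R * X ≤ 4 * ((ϵ * C0) ^ 2 * (R * q) + R⁻¹ ^ 2 * (R * l) + (R * ϵ) ^ 2 * (R * e) + R⁻¹ ^ 2 * (R * x)) := by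
    calc R * X ≤ R * (4 * ((ϵ * C0) ^ 2 * q + R⁻¹ ^ 2 * l + (R * ϵ) ^ 2 * e + R⁻¹ ^ 2 * x)) :=
          mul_le_mul_of_nonneg_left hX hR0.le
      _ = _ := by ring
  refine s5.trans ?_
  calc 4 * ((ϵ * C0) ^ 2 * (R * q) + R⁻¹ ^ 2 * (R * l) + (R * ϵ) ^ 2 * (R * e) + R⁻¹ ^ 2 * (R * x))
      ≤ 4 * (2 * C0 ^ 2 * (R ^ (-(η / 8)) * N) + C1 * (R ^ (-(η / 8)) * N) + K * (R ^ (-(η / 8)) * N) + 2 * (R ^ (-(η / 8)) * N)) := by
        linarith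
    _ ≤ _ := by linarith

/-- one step of the estimate -/
theorem TRL_step (hFLP : FLP_stmt) (Γ : Subgroup SL(2, ℝ)) (F : Set ℍ) (α β : ℝ → ℝ) (V : ℍ → ℝ) (w l R η ϵ C0 K Cg A C1 : ℝ)
    (φ ψ χ : ℍ → ℂ) (hΓ : QU.SurfaceGroup Γ) (hFd : QU.NiceDom Γ F) (hc : TB (1 / 4) (cw β α w l)) (hR : 1 ≤ R) (hη : 0 < η)
    (hη2 : η ≤ 1 / 20) (hϵ : 0 ≤ ϵ) (hK : 0 ≤ K) (hC1 : 0 ≤ C1) (hy : R * ϵ ≤ R ^ (η / 32))
    (hφ2 : QU.CD 2 φ) (hφ : InvC Γ φ) (hψ : InvC Γ ψ) (hχ : InvC Γ χ) (hV : QU.Inv Γ V) (hVb : ∀ z, |V z| ≤ C0)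
    (hlap : ∀ z, QU.lap φ z = ((1 / 4 + R ^ 2 : ℝ) : ℂ) * φ z + ψ z)
    (hψχ : ∀ z, ψ z = ((R ^ 2 * ϵ : ℝ) : ℂ) * (((V z : ℝ) : ℂ) * φ z) + χ z)
    (hχn : nn F χ ≤ R ^ (2 - 1 / 60 : ℝ) * nn F φ)
    (hF1 : ∀ u : ℍ → ℂ, InvC Γ u → R * qn F (cw β α w l) R u ≤ 2 * nn F u)
    (hG : qn F (QU.lap (cw β α w l)) R φ ≤ Cg * (A ^ 2 * w * l ^ 2 / R) * nn F φ)
    (hA : Cg * (A ^ 2 * w * l ^ 2) ≤ C1 * R ^ (3 / 2 : ℝ))
    (hVS : iR F (fun g => ‖Wf (pk R (cw β α w l)) (fun z => ((V z : ℝ) : ℂ) * φ z) g - ((V (g • I) : ℝ) : ℂ) * QQ β α w l R φ g‖ ^ 2) ≤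
      K * R ^ (-(η / 4)) / R * nn F φ) :
    R * iR F (fun h => ‖TRN_X β α V w l R ϵ φ h‖ ^ 2) ≤ 4 * (2 * C0 ^ 2 + C1 + K + 4) * (R ^ (-(η / 8)) * nn F φ) := by
  have hR0 : 0 < R := by linarith
  have hN : 0 ≤ nn F φ := integral_nonneg fun z => by positivity
  have hl : TB (1 / 4) (QU.lap (cw β α w l)) := (A_FL0.1 _ _ hc).2.2.2.2.1
  have t1 := FL1_tst A_FL0 R _ hc
  have t2 := FL1_tst A_FL0 R _ hl
  have hVφ : InvC Γ (fun z => ((V z : ℝ) : ℂ) * φ z) := by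
    refine ⟨(Complex.continuous_ofReal.comp hV.1).mul hφ.1, fun γ z => ?_⟩
    simp only []
    rw [hV.2 γ z, hφ.2 γ z]
  have g1 : InvG Γ (Wf (pk R (cw β α w l)) φ) := A_FL0.2.2 Γ _ _ t1.1 t1.2 hφ
  have g2 : InvG Γ (Wf (pk R (QU.lap (cw β α w l))) φ) := A_FL0.2.2 Γ _ _ t2.1 t2.2 hφ
  have g3 : InvG Γ (Wf (pk R (cw β α w l)) χ) := A_FL0.2.2 Γ _ _ t1.1 t1.2 hχ
  have g4 : InvG Γ (Wf (pk R (cw β α w l)) (fun z => ((V z : ℝ) : ℂ) * φ z)) := A_FL0.2.2 Γ _ _ t1.1 t1.2 hVφ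
  have hVc : Continuous fun h : SL(2, ℝ) => V (h • I) := hV.1.comp (continuous_id.smul continuous_const)
  have g5 : InvG Γ (fun g => Wf (pk R (cw β α w l)) (fun z => ((V z : ℝ) : ℂ) * φ z) g - ((V (g • I) : ℝ) : ℂ) * QQ β α w l R φ g) := by
    refine ⟨g4.1.sub ((Complex.continuous_ofReal.comp hVc).mul g1.1), fun γ g => ?_⟩
    unfold QQ
    simp only []
    rw [g4.2 γ g, g1.2 γ g, mul_smul]
    have : V ((γ : SL(2, ℝ)) • g • (I : ℍ)) = V (g • I) := hV.2 γ _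
    rw [this]
  have hψe : ψ = fun z => ((R ^ 2 * ϵ : ℝ) : ℂ) * (((V z : ℝ) : ℂ) * φ z) + χ z := funext hψχ
  have hpt : ∀ h : SL(2, ℝ), ‖TRN_X β α V w l R ϵ φ h‖ ≤ (ϵ * C0) * ‖Wf (pk R (cw β α w l)) φ h‖ +
      R⁻¹ * ‖Wf (pk R (QU.lap (cw β α w l))) φ h‖ +
      (R * ϵ) * ‖Wf (pk R (cw β α w l)) (fun z => ((V z : ℝ) : ℂ) * φ z) h - ((V (h • I) : ℝ) : ℂ) * QQ β α w l R φ h‖ +
      R⁻¹ * ‖Wf (pk R (cw β α w l)) χ h‖ := by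
    intro h
    refine TRN_alg R ϵ (V (h • I)) C0 _ _ _ (Wf (pk R (cw β α w l)) ψ h) _ _ hR hϵ (hVb _)
      (hFLP Γ R (cw β α w l) φ ψ hc hφ2 hφ hψ hlap h) ?_
    rw [hψe]
    exact TRN_Wadd _ _ _ _ t1.1 t1.2 hVφ.1 hχ.1 h
  have hsum := TRN_sum (μ := mG.restrict (dG F)) _ _ _ _ _ _ _ _ _ (TRN_int Γ F hΓ hFd _ g1) (TRN_int Γ F hΓ hFd _ g2)
    (TRN_int Γ F hΓ hFd _ g5) (TRN_int Γ F hΓ hFd _ g3) hpt
  refine TRL_num R η ϵ C0 C1 K (nn F φ) _ _ _ _ (nn F χ) _ hR hη hη2 hϵ hK hC1 hN hy (hF1 φ hφ) ?_ ?_ (hF1 χ hχ) hχn hsum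
  · calc R * qn F (QU.lap (cw β α w l)) R φ ≤ R * (Cg * (A ^ 2 * w * l ^ 2 / R) * nn F φ) := mul_le_mul_of_nonneg_left hG hR0.le
      _ = Cg * (A ^ 2 * w * l ^ 2) * nn F φ := by field_simp
      _ ≤ _ := mul_le_mul_of_nonneg_right hA hN
  · calc R * iR F (fun g => ‖Wf (pk R (cw β α w l)) (fun z => ((V z : ℝ) : ℂ) * φ z) g - ((V (g • I) : ℝ) : ℂ) * QQ β α w l R φ g‖ ^ 2)
        ≤ R * (K * R ^ (-(η / 4)) / R * nn F φ) := mul_le_mul_of_nonneg_left hVS hR0.le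
      _ = _ := by field_simp

theorem TRL_proof (hTDE : TDE_stmt) (hFLP : FLP_stmt) (hVSL : VSL_stmt) (hGFB : GFB_stmt) (hACC : ACC_stmt) (hF1 : F1_stmt)
    (hQPL : QPL_stmt) (hCWB : CWB_stmt) : TRL_stmt := by
  intro Γ F α β C0 η hΓ hFd hα hβ hC0 hη hη2
  obtain ⟨RF, hRF1, hF1'⟩ := hF1 α β hα hβ
  obtain ⟨K, RV, hK, hRV1, hVSL'⟩ := hVSL Γ F α β C0 η hΓ hFd hα hβ hC0 hη hη2
  obtain ⟨Cg, hCg, hGFB'⟩ := hGFB
  obtain ⟨Ca, hCa, hACC'⟩ := hACC 8 α β hα hβ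
  obtain ⟨RQ, hRQ1, hQPL'⟩ := hQPL Γ F C0 η hΓ hFd hC0 hη hη2
  set Ct : ℝ := 4 * (2 * C0 ^ 2 + Cg * Ca ^ 2 + K + 4) with hCt
  have hCt0 : 0 < Ct := by positivity
  -- the asymptotics
  have ev2 : ∀ᶠ R : ℝ in atTop, (tau R) ^ 2 * Ct ≤ R ^ (η / 16) := by
    have h := (isLittleO_log_rpow_rpow_atTop (2 : ℝ) (by positivity : 0 < η / 16)).bound (by positivity : (0 : ℝ) < 64 / Ct)
    filter_upwards [h, eventually_ge_atTop (1 : ℝ)] with R hR hR1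
    rw [Real.norm_of_nonneg (Real.rpow_nonneg (Real.log_nonneg hR1) _),
      Real.norm_of_nonneg (Real.rpow_nonneg (by linarith) _), Real.rpow_two, div_mul_eq_mul_div, le_div_iff₀ hCt0] at hR
    unfold tau
    linarith
  have ev3 : ∀ᶠ R : ℝ in atTop, R ^ (-η) ≤ 1 / 4 := by
    have h := tendsto_rpow_neg_atTop hη
    exact (h.eventually (ge_mem_nhds (by norm_num : (0 : ℝ) < 1 / 4)))
  have ev4 : ∀ᶠ R : ℝ in atTop, w0 R * Real.exp 1 ≤ R ^ (-η) := by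
    have h := tendsto_rpow_neg_atTop (by norm_num : (0 : ℝ) < 1 / 5)
    filter_upwards [h.eventually (ge_mem_nhds (Real.exp_pos (-1))), eventually_ge_atTop (1 : ℝ)] with R hR hR1
    have hR0 : 0 < R := by linarith
    calc w0 R * Real.exp 1 = R ^ (-(1 / 20) : ℝ) * (R ^ (-(1 / 5) : ℝ) * Real.exp 1) := by
          unfold w0
          rw [← mul_assoc, ← Real.rpow_add hR0]
          norm_num
      _ ≤ R ^ (-(1 / 20) : ℝ) * (Real.exp (-1) * Real.exp 1) := by gcongr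
      _ = R ^ (-(1 / 20) : ℝ) := by rw [← Real.exp_add]; simp
      _ ≤ _ := Real.rpow_le_rpow_of_exponent_le hR1 (by linarith)
  obtain ⟨Re, hRe⟩ := eventually_atTop.1 (ev2.and (ev3.and (ev4.and
    ((eventually_ge_atTop RF).and ((eventually_ge_atTop RV).and (eventually_ge_atTop RQ))))))
  refine ⟨η / 16, max 1 Re, by positivity, le_max_left _ _, ?_⟩
  intro R ϵ t' μ t V φ hR hQ ht0 ht
  have hR1 : 1 ≤ R := (le_max_left _ _).trans hR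
  have hR0 : 0 < R := by linarith
  obtain ⟨hCt2, hl4, hw0l, hRF, hRV, hRQ⟩ := hRe R ((le_max_right _ _).trans hR)
  obtain ⟨hφ, ψ, hψ, hlap, hψn, χ, hχ, hχn, hψχ⟩ := hQPL' R ϵ t' μ V φ hRQ hQ
  have hVb := hQ.bdd
  set l : ℝ := R ^ (-η) with hl
  have hl0 : 0 < l := Real.rpow_pos_of_pos hR0 _
  have hl1 : l ≤ 1 := by linarith
  have hl8 : R ^ (-(1 / 8) : ℝ) ≤ l := Real.rpow_le_rpow_of_exponent_le hR1 (by linarith)
  have hN : 0 ≤ nn F φ := integral_nonneg fun z => by positivity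
  have hy : R * ϵ ≤ R ^ (η / 32) := by
    calc R * ϵ ≤ R * R ^ (-1 + η / 32) := mul_le_mul_of_nonneg_left hQ.eps1 hR0.le
      _ = R ^ (η / 32) := by
        nth_rewrite 1 [← Real.rpow_one R]
        rw [← Real.rpow_add hR0]
        congr 1
        ring
  have hw0p : 0 < w0 R := Real.rpow_pos_of_pos hR0 _
  have hw1p : 0 < w1 R := Real.rpow_pos_of_pos hR0 _
  have hw01 : w1 R = w0 R * Real.exp (-(tau R)) := by
    unfold w1 w0 tau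
    have h1 : Real.exp (-(Real.log R / 8)) = R ^ (-(1 / 8) : ℝ) := by
      rw [Real.rpow_def_of_pos hR0]
      congr 1
      ring
    rw [h1, ← Real.rpow_add hR0]
    norm_num
  have hTB : ∀ w : ℝ, 0 < w → w ≤ l → TB (1 / 4) (cw β α w l) := fun w h1 h2 =>
    (hCWB α β w l hα hβ h1 (h2.trans hl1) hl0 hl1).2.2.2.2.2.2.1
  have hwI : ∀ s ∈ Ioo (-1) (t + 1), w1 R * Real.exp (-1) ≤ w0 R * Real.exp (-s) ∧ w0 R * Real.exp (-s) ≤ l := by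
    intro s hs
    constructor
    · rw [hw01, mul_assoc, ← Real.exp_add]
      exact mul_le_mul_of_nonneg_left (Real.exp_le_exp.2 (by linarith [hs.2])) hw0p.le
    · exact (mul_le_mul_of_nonneg_left (Real.exp_le_exp.2 (by linarith [hs.1])) hw0p.le).trans hw0l
  have hwp : ∀ s : ℝ, 0 < w0 R * Real.exp (-s) := fun s => by positivity
  have hTBs : ∀ s ∈ Ioo (-1) (t + 1), TB (1 / 4) (cw β α (w0 R * Real.exp (-s)) l) := fun s hs =>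
    hTB _ (hwp s) (hwI s hs).2
  have hIcc : ∀ s ∈ Icc 0 t, s ∈ Ioo (-1) (t + 1) := fun s hs => ⟨by linarith [hs.1], by linarith [hs.2]⟩
  have hwIcc : ∀ s ∈ Icc 0 t, w1 R ≤ w0 R * Real.exp (-s) ∧ w0 R * Real.exp (-s) ≤ w0 R := by
    intro s hs
    constructor
    · rw [hw01]
      exact mul_le_mul_of_nonneg_left (Real.exp_le_exp.2 (by linarith [hs.2])) hw0p.le
    · calc w0 R * Real.exp (-s) ≤ w0 R * 1 := mul_le_mul_of_nonneg_left (Real.exp_le_one_iff.2 (by linarith [hs.1])) hw0p.le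
        _ = w0 R := mul_one _
  have hfin := (A_GFD Γ F hΓ hFd).1.2.2.1
  have hfm : IsFiniteMeasure (mG.restrict (dG F)) := ⟨by rwa [Measure.restrict_apply_univ]⟩
  -- the bound of the derivative in the mean
  have hstep : ∀ s ∈ Icc 0 t, R * iR F (fun h => ‖TRN_X β α V (w0 R * Real.exp (-s)) l R ϵ φ h‖ ^ 2) ≤
      Ct * (R ^ (-(η / 8)) * nn F φ) := by
    intro s hs
    obtain ⟨hw1, hw0⟩ := hwIcc s hs
    have hwl := (hwI s (hIcc s hs)).2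
    have hc := hTBs s (hIcc s hs)
    have hwpos := hwp s
    set w : ℝ := w0 R * Real.exp (-s) with hw
    have h12 : R ^ (-(1 / 2) : ℝ) ≤ w := (Real.rpow_le_rpow_of_exponent_le hR1 (by norm_num)).trans hw1
    obtain ⟨-, -, hAC⟩ := hACC' w l hwpos hwl hl1
    refine TRL_step hFLP Γ F α β V w l R η ϵ C0 K Cg (Ca * (w ^ (-(5 / 2) : ℝ) / l)) (Cg * Ca ^ 2) φ ψ χ hΓ hFd hc hR1 hη hη2
      hQ.eps0 hK.le (by positivity) hy hQ.eig.1 hφ hψ hχ hQ.inv hVb hlap hψχ hχn ?_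
      (hGFB' Γ F R w l _ _ hΓ hFd hR1 h12 hwl hl4 (by positivity) hAC φ hφ) ?_
      (hVSL' R w V φ hRV hw1 hw0 hQ.inv hQ.bdd hQ.lip hφ)
    · intro u hu
      refine (hF1' Γ F R w l hΓ hFd hRF hw1 hw0 hl8 hl1 u hu).trans ?_
      have h3 : R ^ (-(1 / 40) : ℝ) ≤ 1 := Real.rpow_le_one_of_one_le_of_nonpos hR1 (by norm_num)
      exact mul_le_mul_of_nonneg_right (by linarith) (integral_nonneg fun z => by positivity)
    · have h4 : w ^ (-4 : ℝ) ≤ R ^ (3 / 2 : ℝ) := by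
        calc w ^ (-4 : ℝ) ≤ (w1 R) ^ (-4 : ℝ) := Real.rpow_le_rpow_of_nonpos hw1p hw1 (by norm_num)
          _ = R ^ (3 / 2 : ℝ) := by
            unfold w1
            rw [← Real.rpow_mul hR0.le]
            norm_num
      have h5 : (w ^ (-(5 / 2) : ℝ)) ^ 2 * w = w ^ (-4 : ℝ) := by
        rw [← Real.rpow_natCast, ← Real.rpow_mul hwpos.le]
        nth_rewrite 2 [← Real.rpow_one w]
        rw [← Real.rpow_add hwpos]
        norm_num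
      calc Cg * ((Ca * (w ^ (-(5 / 2) : ℝ) / l)) ^ 2 * w * l ^ 2) = Cg * Ca ^ 2 * ((w ^ (-(5 / 2) : ℝ)) ^ 2 * w) := by
            field_simp
        _ = Cg * Ca ^ 2 * w ^ (-4 : ℝ) := by rw [h5]
        _ ≤ _ := mul_le_mul_of_nonneg_left h4 (by positivity)
  have hB : ∀ s ∈ Icc 0 t, ∫ g in dG F, ‖TRN_Y' β α V l R ϵ φ s g‖ ^ 2 ∂mG ≤ R⁻¹ * (Ct * (R ^ (-(η / 8)) * nn F φ)) := by
    intro s hs
    have hX := TRN_Xinv Γ β α V _ l R ϵ φ hφ hQ.inv (hTBs s (hIcc s hs))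
    have e1 : ∫ g in dG F, ‖TRN_Y' β α V l R ϵ φ s g‖ ^ 2 ∂mG =
        iR F (fun h => ‖TRN_X β α V (w0 R * Real.exp (-s)) l R ϵ φ h‖ ^ 2) := by
      simp only [TRN_Y'n]
      exact ((A_GFD Γ F hΓ hFd).2 ℝ).1 (fun h => ‖TRN_X β α V (w0 R * Real.exp (-s)) l R ϵ φ h‖ ^ 2) (aM s)
        (fun γ g => by rw [hX.2 γ g])
    rw [e1, inv_mul_eq_div, le_div_iff₀ hR0, mul_comm]
    exact hstep s hs
  -- uniform bounds
  obtain ⟨m, hm⟩ := TRN_bd Γ hΓ φ hφ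
  have hm0 : 0 ≤ m := (norm_nonneg _).trans (hm I)
  set om : ℝ := (w1 R * Real.exp (-1)) ^ (-(1 / 2) : ℝ) with hom
  have hom0 : 0 < om := Real.rpow_pos_of_pos (by positivity) _
  set vK : ℝ := (volume TRN_K).toReal with hvK
  have hvK0 : 0 ≤ vK := ENNReal.toReal_nonneg
  have hbd : ∀ s ∈ Ioo (-1) (t + 1), ∀ g : SL(2, ℝ), ‖TRN_Y' β α V l R ϵ φ s g‖ ≤
      R * ϵ / 2 * C0 * (Ca * (om / l) * Real.exp 1 * m * vK) + Ca * (om / l ^ 2) * Real.exp 1 * m * vK := by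
    intro s hs g
    rw [TRN_Y'n]
    obtain ⟨hw1, hwl⟩ := hwI s hs
    have hc := hTBs s hs
    have hwpos := hwp s
    set w : ℝ := w0 R * Real.exp (-s) with hw
    obtain ⟨hAC1, hAC2, -⟩ := hACC' w l hwpos hwl hl1
    have hwom : w ^ (-(1 / 2) : ℝ) ≤ om := Real.rpow_le_rpow_of_nonpos (by positivity) hw1 (by norm_num)
    have b1 : ‖QQ β α w l R φ (g * aM s)‖ ≤ Ca * (om / l) * Real.exp 1 * m * vK := by
      refine TRN_sup R _ m _ φ _ hc (fun z => (TRN_AC hAC1 z).trans ?_) hm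
      gcongr
    have b2 : ‖Wf (pk R (QU.dY (cw β α w l))) φ (g * aM s)‖ ≤ Ca * (om / l ^ 2) * Real.exp 1 * m * vK := by
      refine TRN_sup R _ m _ φ _ ((A_FL0.1 _ _ hc).2.2.1) (fun z => (TRN_AC hAC2 z).trans ?_) hm
      gcongr
    unfold TRN_X
    refine (norm_sub_le _ _).trans (add_le_add ?_ b2)
    rw [norm_mul, norm_mul, Complex.norm_I, mul_one, Complex.norm_real, Real.norm_eq_abs, abs_mul,
      abs_of_nonneg (by have := hQ.eps0; positivity : (0 : ℝ) ≤ R * ϵ / 2)]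
    have := hQ.eps0
    refine mul_le_mul (mul_le_mul_of_nonneg_left (hVb _) (by positivity)) b1 (norm_nonneg _) (by positivity)
  have hYb : ∀ s ∈ Icc 0 t, ∃ M, ∀ g : SL(2, ℝ), ‖TRN_Y β α V l R ϵ φ s g‖ ≤ M := by
    intro s hs
    have hc := hTBs s (hIcc s hs)
    have t1 := FL1_tst A_FL0 R _ hc
    have g1 : InvG Γ (Wf (pk R (cw β α (w0 R * Real.exp (-s)) l)) φ) := A_FL0.2.2 Γ _ _ t1.1 t1.2 hφ
    obtain ⟨M, hM⟩ := (A_GBD Γ ℂ _ hΓ g1).1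
    exact ⟨M, fun g => by rw [TRN_Yn]; exact hM _⟩
  have hmv := TRN_mv (μ := mG.restrict (dG F)) (TRN_Y β α V l R ϵ φ) (TRN_Y' β α V l R ϵ φ) t _ ht0
    (fun s hs => (TRN_Yc Γ α β V l R ϵ φ hφ hQ.inv.1 s (hTBs s hs)).aestronglyMeasurable)
    (fun s hs => (TRN_Yc' Γ α β V l R ϵ φ hφ hQ.inv s (hTBs s hs)).aestronglyMeasurable) hYb
    (fun g s => TRN_Yd hTDE Γ α β V l R ϵ φ hΓ hα hβ hR0 hl0 hφ hQ.inv.1 g s) ⟨_, hbd⟩ hB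
  -- conclusion
  have haM0 : aM 0 = 1 := by
    ext i j
    fin_cases i <;> fin_cases j <;> simp [aM]
  have hY0 : ∀ g, TRN_Y β α V l R ϵ φ 0 g = QQ β α (w0 R) l R φ g := by
    intro g
    unfold TRN_Y PT th
    rw [intervalIntegral.integral_same, haM0]
    simp
  have heq : iR F (fun g => ‖PT β α (w0 R) l R t φ g -
      Complex.exp (-(((th V (R * ϵ / 2) t g : ℝ) : ℂ) * Complex.I)) * QQ β α (w0 R) l R φ g‖ ^ 2) =
      ∫ g in dG F, ‖TRN_Y β α V l R ϵ φ t g - TRN_Y β α V l R ϵ φ 0 g‖ ^ 2 ∂mG := by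
    unfold iR
    congr 1
    funext g
    rw [hY0 g]
    have h6 : TRN_Y β α V l R ϵ φ t g - QQ β α (w0 R) l R φ g = Complex.exp (((th V (R * ϵ / 2) t g : ℝ) : ℂ) * Complex.I) *
        (PT β α (w0 R) l R t φ g - Complex.exp (-(((th V (R * ϵ / 2) t g : ℝ) : ℂ) * Complex.I)) * QQ β α (w0 R) l R φ g) := by
      unfold TRN_Y
      rw [mul_sub, ← mul_assoc (Complex.exp _) (Complex.exp _), ← Complex.exp_add, add_neg_cancel, Complex.exp_zero, one_mul]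
    rw [h6, norm_mul, Complex.norm_exp_ofReal_mul_I, one_mul]
  rw [heq]
  calc R * ∫ g in dG F, ‖TRN_Y β α V l R ϵ φ t g - TRN_Y β α V l R ϵ φ 0 g‖ ^ 2 ∂mG
      ≤ R * (t ^ 2 * (R⁻¹ * (Ct * (R ^ (-(η / 8)) * nn F φ)))) := mul_le_mul_of_nonneg_left hmv hR0.le
    _ = t ^ 2 * Ct * (R ^ (-(η / 8)) * nn F φ) := by field_simp
    _ ≤ R ^ (η / 16) * (R ^ (-(η / 8)) * nn F φ) := by
        refine mul_le_mul_of_nonneg_right ?_ (by positivity)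
        refine le_trans ?_ hCt2
        exact mul_le_mul_of_nonneg_right (pow_le_pow_left₀ ht0 ht 2) hCt0.le
    _ = _ := by
        rw [← mul_assoc, ← Real.rpow_add hR0]
        congr 2
        ring

end Pool.Agent.RPQ
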